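import Pool.Agent.helper7.UL.Spec

/-!
# ul:WIN (project MP_62ffdf_lc, spec by helper7)
-/

set_option autoImplicit false

namespace Pool.Agent.UL

open Finset

theorem WIN_split (R W cm c0 : ℕ) (A : ℤ) (g : ℤ → Bool)
    (h1 : ∀ B : ℤ, -R ≤ B → B < W - R → g ((A - 1) * W + B) = wv R cm B)
    (h2 : ∀ B : ℤ, -R ≤ B → B < W - R → g (A * W + B) = wv R c0 B)
    (B₀ : ℤ) (hB : -R ≤ B₀) (hB' : B₀ < W - R) :
    ((Ioc (A * W + B₀ - W) (A * W + B₀)).filter fun i => g i = true).card =
      ((Ioo B₀ ((W : ℤ) - R)).filter fun B => wv R cm B = true).card +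
      ((Icc (-(R : ℤ)) B₀).filter fun B => wv R c0 B = true).card := by
  have hset : ((Ioc (A * W + B₀ - W) (A * W + B₀)).filter fun i => g i = true) =
      (((Ioo B₀ ((W : ℤ) - R)).filter fun B => wv R cm B = true).image fun B => (A - 1) * W + B) ∪
      (((Icc (-(R : ℤ)) B₀).filter fun B => wv R c0 B = true).image fun B => A * W + B) := by
    ext i
    simp only [mem_filter, mem_Ioc, mem_union, mem_image, mem_Ioo, mem_Icc]
    constructor
    · rintro ⟨⟨ha, hb⟩, hg⟩
      rcases lt_or_ge i (A * W - R) with hlt | hge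
      · left
        have he : (A - 1) * (W : ℤ) + (i - (A - 1) * W) = i := by ring
        have hx1 : B₀ < i - (A - 1) * (W : ℤ) := by
          have : (A - 1) * (W : ℤ) = A * W - W := by ring
          rw [this]; linarith
        have hx2 : i - (A - 1) * (W : ℤ) < (W : ℤ) - R := by
          have : (A - 1) * (W : ℤ) = A * W - W := by ring
          rw [this]; linarith
        refine ⟨i - (A - 1) * W, ⟨⟨hx1, hx2⟩, ?_⟩, he⟩
        rw [← h1 _ (by linarith) hx2, he]
        exact hg
      · right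
        have he : A * (W : ℤ) + (i - A * W) = i := by ring
        have hx1 : -(R : ℤ) ≤ i - A * (W : ℤ) := by linarith
        have hx2 : i - A * (W : ℤ) ≤ B₀ := by linarith
        refine ⟨i - A * W, ⟨⟨hx1, hx2⟩, ?_⟩, he⟩
        rw [← h2 _ hx1 (by linarith), he]
        exact hg
    · rintro (⟨B, ⟨⟨ha, hb⟩, hw⟩, rfl⟩ | ⟨B, ⟨⟨ha, hb⟩, hw⟩, rfl⟩)
      · have : (A - 1) * (W : ℤ) = A * W - W := by ring
        refine ⟨⟨by rw [this]; linarith, by rw [this]; linarith⟩, ?_⟩
        rw [h1 B (by linarith) hb]; exact hw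
      · refine ⟨⟨by linarith, by linarith⟩, ?_⟩
        rw [h2 B ha (by linarith)]; exact hw
  rw [hset, card_union_of_disjoint, card_image_of_injective, card_image_of_injective]
  · intro x y hxy
    have : A * (W : ℤ) + x = A * W + y := hxy
    linarith
  · intro x y hxy
    have : (A - 1) * (W : ℤ) + x = (A - 1) * W + y := hxy
    linarith
  · rw [disjoint_left]
    intro i hi hj
    simp only [mem_filter, mem_image, mem_Ioo, mem_Icc] at hi hj
    obtain ⟨B, ⟨⟨_, hb⟩, _⟩, he⟩ := hi
    obtain ⟨B', ⟨⟨ha', _⟩, _⟩, he'⟩ := hj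
    have : (A - 1) * (W : ℤ) = A * W - W := by ring
    rw [this] at he
    linarith

theorem WIN_bits (R c a b : ℕ) (hb : b ≤ R + 4) :
    ((Ico ((a : ℤ) - R) ((b : ℤ) - R)).filter fun B => wv R c B = true).card =
      ((Ico a b).filter fun b' => c.testBit b' = true).card := by
  have hwv : ∀ n : ℕ, n < R + 4 → wv R c ((n : ℤ) - R) = c.testBit n := by
    intro n hn
    unfold wv
    rw [if_neg (by linarith), if_neg (by have : (n : ℤ) < R + 4 := by exact_mod_cast hn
                                         linarith)]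
    congr 1
    omega
  have hset : ((Ico ((a : ℤ) - R) ((b : ℤ) - R)).filter fun B => wv R c B = true) =
      ((Ico a b).filter fun b' => c.testBit b' = true).image fun n : ℕ => (n : ℤ) - R := by
    ext B
    simp only [mem_filter, mem_Ico, mem_image]
    constructor
    · rintro ⟨⟨h1, h2⟩, h3⟩
      have hn : ((B + R).toNat : ℤ) = B + R := Int.toNat_of_nonneg (by linarith [Int.natCast_nonneg a])
      refine ⟨(B + R).toNat, ⟨⟨by omega, by omega⟩, ?_⟩, by rw [hn]; ring⟩
      rw [← hwv _ (by omega), hn]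
      have : B + (R : ℤ) - R = B := by ring
      rw [this]; exact h3
    · rintro ⟨n, ⟨⟨h1, h2⟩, h3⟩, rfl⟩
      refine ⟨⟨by linarith [(Int.ofNat_le.2 h1 : (a : ℤ) ≤ n)], by linarith [(Int.ofNat_lt.2 h2 : (n : ℤ) < b)]⟩, ?_⟩
      rw [hwv n (by omega)]; exact h3
  rw [hset, card_image_of_injective]
  intro x y hxy
  have : (x : ℤ) - R = (y : ℤ) - R := hxy
  omega

theorem WIN_pair (s : Finset ℤ) (x y : ℤ) (hx : x ∈ s) (hy : y ∈ s) (hxy : x ≠ y) : 2 ≤ s.card := by
  have h : ({x, y} : Finset ℤ) ⊆ s := by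
    intro z hz
    simp only [mem_insert, mem_singleton] at hz
    rcases hz with rfl | rfl
    · exact hx
    · exact hy
  have := card_le_card h
  rwa [card_pair hxy] at this

theorem WIN : WIN_stmt := by
  intro R W cm c0 A g hR hW hcm hc0 hcont h1 h2 B₀ hB hB'
  have hRz : (8 : ℤ) ≤ R := by exact_mod_cast hR
  have hWz : (R : ℤ) + 10 ≤ W := by exact_mod_cast hW
  rw [WIN_split R W cm c0 A g h1 h2 B₀ hB hB']
  have hbig : ∀ (c : ℕ) (B : ℤ), 3 < B → wv R c B = c.testBit (R + 3) := by
    intro c B hB3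
    unfold wv
    rw [if_neg (by linarith), if_pos hB3]
  have hmid : ∀ (c : ℕ) (B : ℤ) (n : ℕ), -(R : ℤ) ≤ B → B ≤ 3 → (n : ℤ) = B + R → wv R c B = c.testBit n := by
    intro c B n ha hb hn
    unfold wv
    rw [if_neg (by linarith), if_neg (by linarith)]
    congr 1
    omega
  obtain ⟨-, hm1, hm2, hm3, hm4⟩ := hcm
  obtain ⟨-, hc1, hc2, hc3, hc4⟩ := hc0
  refine ⟨?_, ?_, ?_, ?_⟩
  · intro ht
    have ht0 : c0.testBit 0 = true := by rw [← hcont]; exact ht
    rcases lt_or_ge B₀ 4 with hlt | hge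
    · have h4 : (4 : ℤ) ≤ W - R - 6 := by linarith
      have h5 : 2 ≤ ((Ioo B₀ ((W : ℤ) - R)).filter fun B => wv R cm B = true).card := by
        apply WIN_pair _ 4 5
        · simp only [mem_filter, mem_Ioo]
          refine ⟨⟨hlt, by linarith⟩, ?_⟩
          rw [hbig cm 4 (by norm_num)]; exact ht
        · simp only [mem_filter, mem_Ioo]
          refine ⟨⟨by linarith, by linarith⟩, ?_⟩
          rw [hbig cm 5 (by norm_num)]; exact ht
        · norm_num
      omega
    · have h5 : 2 ≤ ((Icc (-(R : ℤ)) B₀).filter fun B => wv R c0 B = true).card := by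
        apply WIN_pair _ (-(R : ℤ)) (-(R : ℤ) + 1)
        · simp only [mem_filter, mem_Icc]
          refine ⟨⟨le_refl _, by linarith⟩, ?_⟩
          rw [hmid c0 (-(R : ℤ)) 0 (le_refl _) (by linarith) (by push_cast; ring)]; exact ht0
        · simp only [mem_filter, mem_Icc]
          refine ⟨⟨by linarith, by linarith⟩, ?_⟩
          rw [hmid c0 (-(R : ℤ) + 1) 1 (by linarith) (by linarith) (by push_cast; ring), hc1]; exact ht0
        · linarith
      omega
  · intro hf hB3
    have hn : (((B₀ + R).toNat : ℕ) : ℤ) = B₀ + R := Int.toNat_of_nonneg (by linarith)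
    set n := (B₀ + R).toNat with hndef
    have hn4 : n < R + 4 := by omega
    have e1 : ((Ioo B₀ ((W : ℤ) - R)).filter fun B => wv R cm B = true) =
        ((Ico (((n + 1 : ℕ) : ℤ) - R) (((R + 4 : ℕ) : ℤ) - R)).filter fun B => wv R cm B = true) := by
      ext B
      simp only [mem_filter, mem_Ioo, mem_Ico]
      push_cast
      constructor
      · rintro ⟨⟨ha, hb⟩, hw⟩
        have h3 : B ≤ 3 := by
          by_contra hcon
          rw [hbig cm B (by linarith), hf] at hw
          exact absurd hw (by decide)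
        exact ⟨⟨by linarith, by linarith⟩, hw⟩
      · rintro ⟨⟨ha, hb⟩, hw⟩
        exact ⟨⟨by linarith, by linarith⟩, hw⟩
    have e2 : (Icc (-(R : ℤ)) B₀) = Ico (((0 : ℕ) : ℤ) - R) (((n + 1 : ℕ) : ℤ) - R) := by
      ext B
      simp only [mem_Icc, mem_Ico]
      push_cast
      constructor
      · rintro ⟨ha, hb⟩; exact ⟨by linarith, by linarith⟩
      · rintro ⟨ha, hb⟩; exact ⟨by linarith, by linarith⟩
    rw [e1, e2, WIN_bits R cm (n + 1) (R + 4) (le_refl _), WIN_bits R c0 0 (n + 1) (by omega), Nat.Ico_zero_eq_range]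
  · intro hf hB3 hf0
    have e1 : ((Ioo B₀ ((W : ℤ) - R)).filter fun B => wv R cm B = true) = ∅ := by
      rw [filter_eq_empty_iff]
      intro B hB2
      rw [mem_Ioo] at hB2
      rw [hbig cm B (by linarith [hB2.1]), hf]
      decide
    have e2 : ((Icc (-(R : ℤ)) B₀).filter fun B => wv R c0 B = true) =
        ((Ico (((0 : ℕ) : ℤ) - R) (((R + 4 : ℕ) : ℤ) - R)).filter fun B => wv R c0 B = true) := by
      ext B
      simp only [mem_filter, mem_Icc, mem_Ico]
      push_cast
      constructor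
      · rintro ⟨⟨ha, hb⟩, hw⟩
        have h3 : B ≤ 3 := by
          by_contra hcon
          rw [hbig c0 B (by linarith), hf0] at hw
          exact absurd hw (by decide)
        exact ⟨⟨by linarith, by linarith⟩, hw⟩
      · rintro ⟨⟨ha, hb⟩, hw⟩
        exact ⟨⟨by linarith, by linarith⟩, hw⟩
    rw [e1, e2, WIN_bits R c0 0 (R + 4) (le_refl _), Nat.Ico_zero_eq_range, card_empty, zero_add]
  · intro hf hB3 ht0
    have h : ({2, 3, 4} : Finset ℤ) ⊆ ((Icc (-(R : ℤ)) B₀).filter fun B => wv R c0 B = true) := by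
      intro z hz
      simp only [mem_insert, mem_singleton] at hz
      simp only [mem_filter, mem_Icc]
      rcases hz with rfl | rfl | rfl
      · refine ⟨⟨by linarith, by linarith⟩, ?_⟩
        rw [hmid c0 2 (R + 2) (by linarith) (by norm_num) (by push_cast; ring), hc4]; exact ht0
      · refine ⟨⟨by linarith, by linarith⟩, ?_⟩
        rw [hmid c0 3 (R + 3) (by linarith) (by norm_num) (by push_cast; ring)]; exact ht0
      · refine ⟨⟨by linarith, by linarith⟩, ?_⟩
        rw [hbig c0 4 (by norm_num)]; exact ht0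
    have h3 := card_le_card h
    have h4 : ({2, 3, 4} : Finset ℤ).card = 3 := by decide
    omega

end Pool.Agent.UL
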